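import Pool.Agent.H3.G9.CLW
import Pool.Agent.H3.BT.NCX
import Pool.Agent.H6.G9.Targets

/-!
# Row LFC of g9_modules: good lifts, all nearby frequencies have few bad quadruples
-/

set_option autoImplicit false

open Finset Pool.Agent.H6.N4D Pool.Agent.H93

namespace Pool.Agent.H3.G9

/-- bad quadruples for other lengths and thresholds after small shifts -/
lemma bad_shift2 {N N' : ℕ} {κ κ' η : ℝ} {α α' : ℕ → ℝ} {q : Fin 4 → ℕ}
    (hd : ∀ j, nd (α (q j) - α' (q j)) ≤ η) (hk : 1 / (κ' * N') + 4 * η ≤ 1 / (κ * N))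
    (h : Pool.Agent.H21.BS.Bad N' κ' α' q) : Pool.Agent.H21.BS.Bad N κ α q := by
  obtain ⟨b, hb, hn⟩ := h
  refine ⟨b, hb, ?_⟩
  have e : α (q 0) - α (q 1) - α (q 2) + α (q 3) - ∑ j, (b j : ℝ) / q j =
      (α' (q 0) - α' (q 1) - α' (q 2) + α' (q 3) - ∑ j, (b j : ℝ) / q j) +
      ((α (q 0) - α' (q 0)) - (α (q 1) - α' (q 1)) - (α (q 2) - α' (q 2)) +
        (α (q 3) - α' (q 3))) := by ring
  rw [e]
  refine (nd_add_le _ _).trans ?_
  have h1 : nd ((α (q 0) - α' (q 0)) - (α (q 1) - α' (q 1)) - (α (q 2) - α' (q 2)) +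
        (α (q 3) - α' (q 3))) ≤ 4 * η := by
    refine (nd_add_le _ _).trans ?_
    have h2 := nd_sub_le ((α (q 0) - α' (q 0)) - (α (q 1) - α' (q 1))) (α (q 2) - α' (q 2))
    have h3 := nd_sub_le (α (q 0) - α' (q 0)) (α (q 1) - α' (q 1))
    have := hd 0
    have := hd 1
    have := hd 2
    have := hd 3
    linarith
  linarith

/-- the mass of the bad quadruples -/
lemma badmass_shift2 {N N' : ℕ} {κ κ' η : ℝ} {Q : Finset ℕ} {α α' : ℕ → ℝ}
    (hd : ∀ q ∈ Q, nd (α q - α' q) ≤ η) (hk : 1 / (κ' * N') + 4 * η ≤ 1 / (κ * N)) :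
    Pool.Agent.H21.BS.badmass N' κ' Q α' ≤ Pool.Agent.H21.BS.badmass N κ Q α := by
  classical
  unfold Pool.Agent.H21.BS.badmass
  apply sum_le_sum_of_subset_of_nonneg
  · intro q hq
    rw [mem_filter] at hq ⊢
    refine ⟨hq.1, hq.2.1, bad_shift2 (fun j => hd _ ?_) hk hq.2.2⟩
    exact Fintype.mem_piFinset.mp hq.1 j
  · intro q _ _
    exact prod_nonneg fun j _ => by positivity

/-- the numbers of the level -/
lemma num (m : ℕ) (hm : 48000 ≤ m) :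
    (0 : ℝ) < 1 ∧
    ((2 : ℝ) ^ (m / 200)) ^ 100 ≤ Pool.Agent.H3.BES.kp m * ((2 ^ (m - m / 50) : ℕ) : ℝ) ∧
    1 / (Pool.Agent.H3.BT.kq m * ((4 ^ (m / 2) : ℕ) : ℝ)) +
      4 * (4 * 2 ^ (m / 50) / 2 ^ m + 1 / ((2 ^ (m - m / 50) : ℕ) : ℝ)) ≤
      1 / (Pool.Agent.H3.BES.kp m * ((2 ^ (m - m / 50) : ℕ) : ℝ)) := by
  refine ⟨by positivity, ?_, ?_⟩
  · unfold Pool.Agent.H3.BES.kp
    push_cast
    rw [one_div_pow, ← pow_mul, one_div, inv_mul_eq_div, le_div_iff₀ (by positivity), ← pow_add]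
    exact pow_le_pow_right₀ (by norm_num) (by omega)
  · unfold Pool.Agent.H3.BES.kp Pool.Agent.H3.BT.kq
    push_cast
    set a := m / 4800 with ha
    set b := m / 2400 with hb
    set c := m / 50 with hc
    have hsplit : (2 : ℝ) ^ m = 2 ^ (m - c) * 2 ^ c := by
      rw [← pow_add]
      congr 1
      omega
    have hx : (0 : ℝ) < 2 ^ (m - c) := by positivity
    have hc0 : (0 : ℝ) < 2 ^ c := by positivity
    have h4 : (2 : ℝ) ^ m ≤ 2 * 4 ^ (m / 2) := by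
      have : (2 : ℝ) * 4 ^ (m / 2) = 2 ^ (2 * (m / 2) + 1) := by
        rw [pow_succ, pow_mul]
        norm_num
        ring
      rw [this]
      exact pow_le_pow_right₀ (by norm_num) (by omega)
    have e1 : 1 / ((1 / 2 : ℝ) ^ a * 4 ^ (m / 2)) ≤ 2 ^ (a + 1) / 2 ^ m := by
      rw [one_div_pow, div_le_div_iff₀ (by positivity) (by positivity), one_mul]
      calc (2 : ℝ) ^ m ≤ 2 * 4 ^ (m / 2) := h4
        _ = 2 ^ (a + 1) * (1 / 2 ^ a * 4 ^ (m / 2)) := by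
            rw [pow_succ]
            field_simp
    have e2 : (2 : ℝ) ^ (a + 1) / 2 ^ m ≤ 1 / 2 ^ (m - c) := by
      rw [hsplit, div_le_div_iff₀ (by positivity) hx, one_mul, mul_comm]
      apply mul_le_mul_of_nonneg_left _ hx.le
      exact pow_le_pow_right₀ (by norm_num) (by omega)
    have e3 : 4 * (4 * (2 : ℝ) ^ c / 2 ^ m + 1 / 2 ^ (m - c)) = 20 / 2 ^ (m - c) := by
      rw [hsplit]
      field_simp
      norm_num
    have e4 : 1 / ((1 / 2 : ℝ) ^ b * 2 ^ (m - c)) = 2 ^ b / 2 ^ (m - c) := by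
      rw [one_div_pow]
      field_simp
    have e5 : (21 : ℝ) ≤ 2 ^ b := by
      calc (21 : ℝ) ≤ 2 ^ 5 := by norm_num
        _ ≤ 2 ^ b := pow_le_pow_right₀ (by norm_num) (by omega)
    rw [e3, e4]
    have e6 : (21 : ℝ) / 2 ^ (m - c) ≤ 2 ^ b / 2 ^ (m - c) :=
      div_le_div_of_nonneg_right e5 hx.le
    have e7 : (21 : ℝ) / 2 ^ (m - c) = 1 / 2 ^ (m - c) + 20 / 2 ^ (m - c) := by ring
    linarith

theorem pf_LFC : Pool.Agent.H6.G9.T_LFC := by
  obtain ⟨W, hW⟩ := Pool.Agent.H3.BES.msu_of Pool.Agent.H20.ENM.pf_QMS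
  obtain ⟨C, hC, hclu⟩ := clw W 1 one_pos
  obtain ⟨s₂, hs₂⟩ := pow_unbounded_of_one_lt C (show (1 : ℝ) < 2 by norm_num)
  refine ⟨max (2400 * s₂) 48000, ?_⟩
  intro m β hm
  have hm1 : 2400 * s₂ ≤ m := (le_max_left _ _).trans hm
  have hm2 : 48000 ≤ m := (le_max_right _ _).trans hm
  obtain ⟨-, hn1, hn2⟩ := num m hm2
  obtain ⟨α, ha, hb⟩ := hclu (2 ^ (m - m / 50)) (2 ^ (m / 400)) (Pool.Agent.H3.BES.kp m)
    (EB.QQ m) β
    (fun q hq => Pool.Agent.H1.BES.QQ_prime _ _ hq) (fun q hq => Pool.Agent.H1.BES.QQ_lo _ _ hq)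
    (fun q hq => by
      refine le_trans ?_ hn1
      apply pow_le_pow_left₀ (by positivity)
      have h1 := (Pool.Agent.H3.BES.mem_QQ.mp hq).1.2
      exact_mod_cast h1) (hW _) (Pool.Agent.H1.BES.kp_pos _)
    (Pool.Agent.H1.BES.kp_le_one _) Nat.one_le_two_pow
    (hs₂.le.trans (Pool.Agent.H1.BES.kp_five m s₂ hm1))
  have hex : ∀ q : ℕ, ∃ z : ℤ, q ∈ EB.QQ m → nd (α q - β q - (z : ℝ) / q) ≤
      1 / ((2 ^ (m - m / 50) : ℕ) : ℝ) := by
    intro q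
    by_cases hq : q ∈ EB.QQ m
    · obtain ⟨z, hz⟩ := ha q hq
      exact ⟨z, fun _ => hz⟩
    · exact ⟨0, fun h => absurd h hq⟩
  choose z hz using hex
  refine ⟨z, ?_⟩
  intro α' hα'
  unfold Pool.Agent.H3.BT.NCt
  have h1 : Pool.Agent.H21.BS.badmass (4 ^ (m / 2)) (Pool.Agent.H3.BT.kq m) (EB.QQ m) α' ≤
      Pool.Agent.H21.BS.badmass (2 ^ (m - m / 50)) (Pool.Agent.H3.BES.kp m) (EB.QQ m) α := by
    apply badmass_shift2 (η := 4 * 2 ^ (m / 50) / 2 ^ m + 1 / ((2 ^ (m - m / 50) : ℕ) : ℝ))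
    · intro q hq
      have e : α q - α' q = (α q - β q - (z q : ℝ) / q) - (α' q - (β q + (z q : ℝ) / q)) := by
        ring
      rw [e]
      refine (nd_sub_le _ _).trans ?_
      have h2 := hz q hq
      have h3 := hα' q hq
      linarith
    · exact hn2
  refine h1.trans (hb.trans ?_)
  unfold Pool.Agent.H3.BES.kp Pool.Agent.H3.BT.kq
  exact pow_le_pow_of_le_one (by norm_num) (by norm_num) (by omega)

end Pool.Agent.H3.G9
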