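import Pool.Agent.H3.BES.CLA

/-!
# Clusters with a weak arithmetical condition
-/

set_option autoImplicit false

open Finset Pool.Agent.H6.N4D Pool.Agent.H3.BES

namespace Pool.Agent.H3.G9

/-- good lifts, with the condition `q ^ 100 ≤ κ N` -/
theorem clw : ∀ W ε : ℝ, 0 < ε → ∃ C : ℝ, 0 < C ∧ ∀ (N P : ℕ) (κ : ℝ) (Q : Finset ℕ)
    (β : ℕ → ℝ), (∀ q ∈ Q, q.Prime) → (∀ q ∈ Q, P ≤ q) → (∀ q ∈ Q, (q : ℝ) ^ 100 ≤ κ * N) →
    ∑ q ∈ Q, 1 / (q : ℝ) ≤ W → 0 < κ → κ ≤ 1 → 1 ≤ N → C ≤ κ ^ 5 * P →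
    ∃ α : ℕ → ℝ, (∀ q ∈ Q, ∃ b : ℤ, nd (α q - β q - (b : ℝ) / q) ≤ ε / N) ∧
      Pool.Agent.H21.BS.badmass N κ Q α ≤ κ := by
  classical
  intro W ε hε
  set A : ℝ := max W 1 with hA
  set e1 : ℝ := min ε 1 with he1
  have hA1 : 1 ≤ A := le_max_right _ _
  have hA0 : 0 < A := by linarith
  have he0 : 0 < e1 := lt_min hε one_pos
  have he11 : e1 ≤ 1 := min_le_right _ _
  have heε : e1 ≤ ε := min_le_left _ _
  refine ⟨80 * A ^ 15 / e1 + 18 * A ^ 7 + 1, by positivity, ?_⟩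
  intro N P κ Q β hp hP hq100 hW hκ hκ1 hN1 hC
  by_cases hQ : Q = ∅
  · subst hQ
    refine ⟨β, by simp, ?_⟩
    have := badmass_le (N := N) (κ := κ) (Q := ∅) (α := β) (by simp)
    simp at this
    linarith
  obtain ⟨qm, hqm⟩ := Finset.nonempty_iff_ne_empty.mpr hQ
  -- R
  obtain ⟨R, hRQ, hRmax⟩ := Finset.exists_max_image Q id ⟨qm, hqm⟩
  simp only [id] at hRmax
  have hR2 : 2 ≤ R := (hp R hRQ).two_le
  have hNpos : (0 : ℝ) < N := by exact_mod_cast hN1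
  have hPpos : (0 : ℝ) < P := by
    by_contra hneg
    have : (P : ℝ) ≤ 0 := not_lt.mp hneg
    have h2 : κ ^ 5 * P ≤ 0 := mul_nonpos_of_nonneg_of_nonpos (by positivity) this
    have h3 : (0 : ℝ) < 80 * A ^ 15 / e1 + 18 * A ^ 7 + 1 := by positivity
    linarith
  set η : ℝ := 1 / (κ * N) with hη
  have hκNpos : 0 < κ * N := by positivity
  have hηpos : 0 < η := by positivity
  have hRr : (2 : ℝ) ≤ R := by exact_mod_cast hR2
  have hk100 : (R : ℝ) ^ 100 ≤ κ * N := hq100 R hRQ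
  have hη8 : 4 * η * (R : ℝ) ^ 8 < 1 := by
    rw [hη]
    rw [show 4 * (1 / (κ * N)) * (R : ℝ) ^ 8 = 4 * (R : ℝ) ^ 8 / (κ * N) by ring]
    rw [div_lt_one hκNpos]
    calc 4 * (R : ℝ) ^ 8 < (R : ℝ) ^ 92 * (R : ℝ) ^ 8 := by
          apply mul_lt_mul_of_pos_right _ (by positivity)
          calc (4 : ℝ) < 2 ^ 92 := by norm_num
            _ ≤ (R : ℝ) ^ 92 := pow_le_pow_left₀ (by norm_num) hRr 92
      _ = (R : ℝ) ^ 100 := by ring
      _ ≤ κ * N := hk100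
  have hη2 : 2 * η * (R : ℝ) ^ 2 < 1 := by
    have : (R : ℝ) ^ 2 ≤ (R : ℝ) ^ 8 := pow_le_pow_right₀ (by linarith) (by norm_num)
    nlinarith [hηpos, this, hη8, mul_le_mul_of_nonneg_left this hηpos.le,
      mul_nonneg hηpos.le (show (0 : ℝ) ≤ (R : ℝ) ^ 2 by positivity)]
  set lam0 : ℝ := κ ^ 2 / (2 * A ^ 7) with hlam0
  have hlam0pos : 0 < lam0 := by positivity
  set k' : ℝ := lam0 / 2 * (e1 * κ / 5) with hk'
  have hk'pos : 0 < k' := by positivity
  set h : ℝ := e1 / N with hh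
  have hhpos : 0 < h := by positivity
  have hhη : h ≤ η := by
    rw [hh, hη, div_le_div_iff₀ hNpos hκNpos]
    have : e1 * κ ≤ 1 := by
      calc e1 * κ ≤ 1 * 1 := mul_le_mul he11 hκ1 hκ.le (by norm_num)
        _ = 1 := by ring
    nlinarith
  set w : ℕ → ℝ := fun q => 1 / (q : ℝ) with hw
  have hw0 : ∀ q ∈ Q, 0 ≤ w q := fun q _ => by simp only [hw]; positivity
  have hwP : ∀ q ∈ Q, w q ≤ 1 / P := by
    intro q hq
    simp only [hw]
    apply one_div_le_one_div_of_le hPpos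
    exact_mod_cast hP q hq
  have hwA : ∑ q ∈ Q, w q ≤ A := le_trans hW (le_max_left _ _)
  obtain ⟨Qr, V, al, hQrQ, hVk, hal, halr, hrest⟩ :=
    Pool.Agent.H14.BES.clu_GRE (fun x q => ∃ b : ℤ, |x - β q - (b : ℝ) / q| ≤ h) w β k' Q
      hk'pos hw0
  have hhε : h ≤ ε / N := by
    rw [hh]
    exact div_le_div_of_nonneg_right heε hNpos.le
  refine ⟨al, ?_, ?_⟩
  · intro q hq
    by_cases hqr : q ∈ Qr
    · refine ⟨0, ?_⟩
      rw [halr q hqr]
      simp only [sub_self, Int.cast_zero, zero_div]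
      have : nd 0 ≤ |(0 : ℝ)| := nd_le_abs 0
      simp at this
      linarith [this, hhpos]
    · obtain ⟨b, hb⟩ := (hal q hq hqr).2
      exact ⟨b, le_trans (nd_le_abs _) (le_trans hb hhε)⟩
  by_contra hcon
  rw [not_le] at hcon
  set B : ℕ → ℕ → ℕ → ℕ → Prop := fun q1 q2 q3 q => Dist4 q1 q2 q3 q ∧ BadQ al η q1 q2 q3 q
    with hB
  have hbig : κ < ∑ q1 ∈ Q, ∑ q2 ∈ Q, ∑ q3 ∈ Q, ∑ q ∈ Q,
      (if B q1 q2 q3 q then w q1 * w q2 * w q3 * w q else 0) := by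
    refine lt_of_lt_of_le hcon ?_
    exact badmass_le hp
  have hκ5 : κ ^ 5 ≤ κ ^ 2 := pow_le_pow_of_le_one hκ.le hκ1 (by norm_num)
  have hC1 : 18 * A ^ 7 ≤ κ ^ 2 * P := by
    have h1 : 0 < 80 * A ^ 15 / e1 := by positivity
    have h2 : κ ^ 5 * P ≤ κ ^ 2 * P := mul_le_mul_of_nonneg_right hκ5 hPpos.le
    linarith
  have hC2 : 80 * A ^ 15 / e1 ≤ κ ^ 5 * P := by
    have h1 : 0 < 18 * A ^ 7 := by positivity
    linarith
  obtain ⟨q1, hq1, q2, hq2, q3, hq3, r1, hr1, r2, hr2, r3, hr3, hdis, hmass⟩ :=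
    Pool.Agent.H14.BES.clu_CSB Q w A (1 / P) κ B hA0 hκ (by positivity)
      (fun q hq => ⟨hw0 q hq, hwP q hq⟩) hwA (by
        rw [mul_one_div, div_le_iff₀ hPpos]
        linarith) (by convert hbig)
  set M := Q.filter (fun q => B q1 q2 q3 q ∧ B r1 r2 r3 q) with hM
  have hmass' : lam0 ≤ ∑ q ∈ M, w q := by
    rw [hM, hlam0]
    convert hmass
  have hMpos : 0 < ∑ q ∈ M, w q := lt_of_lt_of_le hlam0pos hmass'
  have hMne : M.Nonempty := by
    by_contra hne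
    rw [Finset.not_nonempty_iff_eq_empty] at hne
    rw [hne] at hMpos
    simp at hMpos
  obtain ⟨q0, hq0⟩ := hMne
  have hq0' := (mem_filter.mp hq0).2
  obtain ⟨⟨⟨d12, d13, -, d23, -, -⟩, -⟩, ⟨⟨g12, g13, -, g23, -, -⟩, -⟩⟩ := hq0'
  obtain ⟨x, hx⟩ := clu_NBR Pool.Agent.H4.BES.clu_PFR al η R q1 q2 q3 r1 r2 r3 M hηpos.le hη8
    (by
      intro q hq
      simp only [mem_insert, mem_singleton] at hq
      have hqQ : q ∈ Q := by
        rcases hq with rfl | rfl | rfl | rfl | rfl | rfl <;> assumption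
      exact ⟨hp q hqQ, hRmax q hqQ⟩)
    ⟨d12, d13, d23⟩ ⟨g12, g13, g23⟩ hdis
    (by
      intro q hq
      have hq' := mem_filter.mp hq
      obtain ⟨hqQ, ⟨⟨-, -, a1, -, a2, a3⟩, hb1⟩, ⟨⟨-, -, b1, -, b2, b3⟩, hb2⟩⟩ := hq'
      refine ⟨hp q hqQ, hRmax q hqQ, ?_, hb1, hb2⟩
      simp only [mem_insert, mem_singleton, not_or]
      exact ⟨Ne.symm a1, Ne.symm a2, Ne.symm a3, Ne.symm b1, Ne.symm b2, Ne.symm b3⟩)
  choose! a ha using hx
  -- the clustered part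
  set M1 := M.filter (fun q => q ∉ Qr) with hM1
  set M2 := M.filter (fun q => q ∈ Qr) with hM2
  have hsplit : ∑ q ∈ M, w q = ∑ q ∈ M2, w q + ∑ q ∈ M1, w q := by
    rw [hM1, hM2]
    exact (sum_filter_add_sum_filter_not M (fun q => q ∈ Qr) w).symm
  have hMQ : ∀ q ∈ M, q ∈ Q := fun q hq => (mem_filter.mp hq).1
  have hcard : M1.card ≤ V.card := by
    apply Finset.card_le_card_of_injOn al
    · intro q hq
      have hq' := mem_filter.mp (Finset.mem_coe.mp hq)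
      exact (hal q (hMQ q hq'.1) hq'.2).1
    · intro q hq r hr hqr
      by_contra hne
      have hq' := mem_filter.mp (Finset.mem_coe.mp hq)
      have hr' := mem_filter.mp (Finset.mem_coe.mp hr)
      have hqQ := hMQ q hq'.1
      have hrQ := hMQ r hr'.1
      exact Pool.Agent.H46.BES.clu_INJ al η x R q r (hp q hqQ) (hp r hrQ) hne (hRmax q hqQ)
        (hRmax r hrQ) hη2 ⟨a q, ha q hq'.1⟩ ⟨a r, ha r hr'.1⟩ hqr
  have hmass1 : ∑ q ∈ M1, w q ≤ lam0 / 2 := by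
    have h1 : ∑ q ∈ M1, w q ≤ M1.card * (1 / P) := by
      calc ∑ q ∈ M1, w q ≤ ∑ _q ∈ M1, (1 / P : ℝ) :=
            sum_le_sum fun q hq => hwP q (hMQ q (mem_filter.mp hq).1)
        _ = M1.card * (1 / P) := by simp
    have h2 : (M1.card : ℝ) ≤ V.card := by exact_mod_cast hcard
    have h3 : (V.card : ℝ) ≤ A / k' := by
      rw [le_div_iff₀ hk'pos]
      exact le_trans hVk hwA
    calc ∑ q ∈ M1, w q ≤ M1.card * (1 / P) := h1
      _ ≤ A / k' * (1 / P) := by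
          apply mul_le_mul_of_nonneg_right (le_trans h2 h3) (by positivity)
      _ ≤ lam0 / 2 := by
          rw [div_mul_div_comm, mul_one, div_le_iff₀ (by positivity)]
          have h4 : lam0 / 2 * (k' * P) = κ ^ 5 * P * (e1 / (80 * A ^ 14)) := by
            rw [hk', hlam0]
            field_simp
            ring
          rw [h4]
          calc A = 80 * A ^ 15 / e1 * (e1 / (80 * A ^ 14)) := by
                field_simp
            _ ≤ κ ^ 5 * P * (e1 / (80 * A ^ 14)) :=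
                mul_le_mul_of_nonneg_right hC2 (by positivity)
  have hmass2 : lam0 / 2 ≤ ∑ q ∈ M2, w q := by linarith [hsplit, hmass1, hmass']
  obtain ⟨t, ht⟩ := Pool.Agent.H54.BES.clu_BIN M2 w (fun q => β q - x - (a q : ℝ) / q) η h hhpos
    hhη (by
      intro q hq
      have hq' := mem_filter.mp hq
      refine ⟨hw0 q (hMQ q hq'.1), ?_⟩
      have := (ha q hq'.1).2
      rw [halr q hq'.2] at this
      exact this)
  have hlow : k' ≤ ∑ q ∈ M2.filter (fun q => |β q - x - (a q : ℝ) / q - t| ≤ h), w q := by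
    refine le_trans ?_ ht
    have h5 : h / (5 * η) = e1 * κ / 5 := by
      rw [hh, hη]
      field_simp
    rw [h5, hk']
    exact mul_le_mul_of_nonneg_right hmass2 (by positivity)
  have hsub : M2.filter (fun q => |β q - x - (a q : ℝ) / q - t| ≤ h) ⊆
      Qr.filter (fun q => ∃ b : ℤ, |(x + t) - β q - (b : ℝ) / q| ≤ h) := by
    intro q hq
    obtain ⟨hq2, hq3⟩ := mem_filter.mp hq
    refine mem_filter.mpr ⟨(mem_filter.mp hq2).2, -(a q), ?_⟩
    push_cast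
    rw [show x + t - β q - -(a q : ℝ) / q = -(β q - x - (a q : ℝ) / q - t) by ring, abs_neg]
    exact hq3
  have hup := hrest (x + t)
  have hle : ∑ q ∈ M2.filter (fun q => |β q - x - (a q : ℝ) / q - t| ≤ h), w q ≤
      ∑ q ∈ Qr.filter (fun q => ∃ b : ℤ, |(x + t) - β q - (b : ℝ) / q| ≤ h), w q := by
    apply sum_le_sum_of_subset_of_nonneg hsub
    intro q hq _
    exact hw0 q (hQrQ (mem_filter.mp hq).1)
  linarith

end Pool.Agent.H3.G9
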